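import Pool.Agent.Helper73.DC.St2

/-!
# Project DC (MP_26f0da_lc): module L1 (truncated subtraction, min, max)
-/

set_option autoImplicit false

namespace Pool.Agent.Helper51.DC

open Pool.Agent.Helper73.DC
open Finset
open scoped Classical

theorem L1_pred {α : Type} [Fintype α] {F : VF α} (hF : E2 F) : E2 (fun w v => F w v - 1) := by
  have key : ∀ (w : List α) (v : ℕ → ℕ) (y : ℕ), prec (fun _ _ => 0) (fun _ u => u 0) w v y = y - 1 := by
    intro w v y
    cases y with
    | zero => rfl
    | succ y => simp only [prec, scons]; omega
  have h := E2.brec (α := α) (F := fun _ _ => 0) (G := fun _ u => u 0) (H := F) (B := F) E2.zero (E2.get 0)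
    hF hF (by
      intro w v y hy
      rw [key]
      omega)
  have e : (fun (w : List α) (v : ℕ → ℕ) => prec (fun _ _ => 0) (fun _ u => u 0) w v (F w v)) =
      fun w v => F w v - 1 := by
    funext w v
    exact key w v _
  rw [e] at h
  exact h

theorem L1_sub {α : Type} [Fintype α] {F G : VF α} (hF : E2 F) (hG : E2 G) :
    E2 (fun w v => F w v - G w v) := by
  have key : ∀ (w : List α) (v : ℕ → ℕ) (y : ℕ), prec F (fun _ u => u 1 - 1) w v y = F w v - y := by
    intro w v y
    induction y with
    | zero => rfl
    | succ y ih => simp only [prec, scons]; rw [ih]; omega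
  have h := E2.brec (α := α) (F := F) (G := fun _ u => u 1 - 1) (H := G) (B := F) hF (L1_pred (E2.get 1))
    hG hF (by
      intro w v y hy
      rw [key]
      omega)
  have e : (fun (w : List α) (v : ℕ → ℕ) => prec F (fun _ u => u 1 - 1) w v (G w v)) =
      fun w v => F w v - G w v := by
    funext w v
    exact key w v _
  rw [e] at h
  exact h

theorem mL1 : StL1 := by
  intro α _ F G hF hG
  refine ⟨L1_sub hF hG, ?_, ?_⟩
  · have h := L1_sub hF (L1_sub hF hG)
    have e : (fun w v => F w v - (F w v - G w v)) = fun w v => min (F w v) (G w v) := by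
      funext w v
      omega
    rw [e] at h
    exact h
  · have h := hG.add (L1_sub hF hG)
    have e : (fun w v => G w v + (F w v - G w v)) = fun w v => max (F w v) (G w v) := by
      funext w v
      omega
    rw [e] at h
    exact h

end Pool.Agent.Helper51.DC
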