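import Pool.Agent.Helper51.DC.Lib

/-!
# Project DC (MP_26f0da_lc): module TD, the Turing machine simulates a decrement
-/

set_option autoImplicit false

namespace Pool.Agent.Helper51.DC

open Pool.Agent.Helper73.DC

theorem TD_δ_st {α : Type} {M : CM α} {lab l0 l1 : M.Lab} {i : Fin M.m}
    (hI : M.ins lab = some (Ins.dec i l0 l1)) (x : Sym α) (y : Fin M.m → Option Bool) :
    (tmOf M).δ (lab, Ph.st) x y = some ((lab, Ph.car), Mv.S, act1 i y (y i) Mv.R) := by
  unfold tmOf
  simp only [hI]

theorem TD_δ_car_f {α : Type} {M : CM α} {lab l0 l1 : M.Lab} {i : Fin M.m}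
    (hI : M.ins lab = some (Ins.dec i l0 l1)) (x : Sym α) (y : Fin M.m → Option Bool)
    (hy : y i = some false) :
    (tmOf M).δ (lab, Ph.car) x y = some ((lab, Ph.car), Mv.S, act1 i y (some true) Mv.R) := by
  unfold tmOf
  simp only [hI]
  rw [if_pos hy]

theorem TD_δ_car_t {α : Type} {M : CM α} {lab l0 l1 : M.Lab} {i : Fin M.m}
    (hI : M.ins lab = some (Ins.dec i l0 l1)) (x : Sym α) (y : Fin M.m → Option Bool)
    (hy : y i = some true) :
    (tmOf M).δ (lab, Ph.car) x y = some ((lab, Ph.ret), Mv.S, act1 i y (some false) Mv.L) := by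
  unfold tmOf
  simp only [hI]
  rw [if_neg (by rw [hy]; simp), if_pos hy]

theorem TD_δ_car_n {α : Type} {M : CM α} {lab l0 l1 : M.Lab} {i : Fin M.m}
    (hI : M.ins lab = some (Ins.dec i l0 l1)) (x : Sym α) (y : Fin M.m → Option Bool)
    (hy : y i = none) :
    (tmOf M).δ (lab, Ph.car) x y = some ((lab, Ph.rs), Mv.S, act1 i y none Mv.L) := by
  unfold tmOf
  simp only [hI]
  rw [if_neg (by rw [hy]; simp), if_neg (by rw [hy]; simp)]

theorem TD_δ_ret_n {α : Type} {M : CM α} {lab l0 l1 : M.Lab} {i : Fin M.m}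
    (hI : M.ins lab = some (Ins.dec i l0 l1)) (x : Sym α) (y : Fin M.m → Option Bool)
    (hy : y i = none) :
    (tmOf M).δ (lab, Ph.ret) x y = some ((l1, Ph.st), Mv.S, act1 i y none Mv.S) := by
  unfold tmOf
  simp only [hI]
  rw [if_pos hy]

theorem TD_δ_ret_s {α : Type} {M : CM α} {lab l0 l1 : M.Lab} {i : Fin M.m}
    (hI : M.ins lab = some (Ins.dec i l0 l1)) (x : Sym α) (y : Fin M.m → Option Bool)
    (hy : y i ≠ none) :
    (tmOf M).δ (lab, Ph.ret) x y = some ((lab, Ph.ret), Mv.S, act1 i y (y i) Mv.L) := by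
  unfold tmOf
  simp only [hI]
  rw [if_neg hy]

theorem TD_δ_rs_n {α : Type} {M : CM α} {lab l0 l1 : M.Lab} {i : Fin M.m}
    (hI : M.ins lab = some (Ins.dec i l0 l1)) (x : Sym α) (y : Fin M.m → Option Bool)
    (hy : y i = none) :
    (tmOf M).δ (lab, Ph.rs) x y = some ((l0, Ph.st), Mv.S, act1 i y none Mv.S) := by
  unfold tmOf
  simp only [hI]
  rw [if_pos hy]

theorem TD_δ_rs_s {α : Type} {M : CM α} {lab l0 l1 : M.Lab} {i : Fin M.m}
    (hI : M.ins lab = some (Ins.dec i l0 l1)) (x : Sym α) (y : Fin M.m → Option Bool)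
    (hy : y i ≠ none) :
    (tmOf M).δ (lab, Ph.rs) x y = some ((lab, Ph.rs), Mv.S, act1 i y (some false) Mv.L) := by
  unfold tmOf
  simp only [hI]
  rw [if_neg hy]

/-- digits after `k` carry steps -/
def TD_f (b : ℕ → Bool) (k : ℕ) : ℕ → Bool := fun j => if j < k then true else b j

theorem TD_f_zero (b : ℕ → Bool) : TD_f b 0 = b := by
  funext j
  simp [TD_f]

theorem TD_f_succ (b : ℕ → Bool) (k : ℕ) :
    Function.update (TD_f b k) k true = TD_f b (k + 1) := by
  funext j
  unfold TD_f
  by_cases hj : j = k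
  · rw [hj, Function.update_self, if_pos (by omega)]
  · rw [Function.update_of_ne hj]
    by_cases h : j < k
    · rw [if_pos h, if_pos (by omega)]
    · rw [if_neg h, if_neg (by omega)]

/-- carry phase -/
theorem TD_car {α : Type} {M : CM α} (w : List α) {lab l0 l1 : M.Lab} {i : Fin M.m}
    (hI : M.ins lab = some (Ins.dec i l0 l1)) (c : (tmOf M).Cfg) (p ll : ℕ)
    (hp : p ≤ w.length + 1) (b : ℕ → Bool) (k : ℕ) (hk : k ≤ ll) (hb : ∀ j < k, b j = false) :
    (tmOf M).RB w (ll + 2) (mkc c i (lab, Ph.car) p 1 (tpd b ll))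
      (mkc c i (lab, Ph.car) p (k + 1) (tpd (TD_f b k) ll)) := by
  induction k with
  | zero =>
    rw [TD_f_zero]
    exact Relation.ReflTransGen.refl
  | succ k ih =>
    refine (ih (by omega) (fun j hj => hb j (by omega))).trans ?_
    refine mkc_RB w c i _ _ p (k + 1) (k + 1 + 1) (ll + 2) _ _ (some true) Mv.R ?_ hp rfl
      (by omega) ?_
    · intro x y hy
      apply TD_δ_car_f hI
      rw [hy, tpd_succ _ _ _ (by omega)]
      unfold TD_f
      rw [if_neg (by omega), hb k (by omega)]
    · rw [tpd_update _ _ _ _ (by omega), TD_f_succ]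

/-- return phase -/
theorem TD_ret {α : Type} {M : CM α} (w : List α) {lab l0 l1 : M.Lab} {i : Fin M.m}
    (hI : M.ins lab = some (Ins.dec i l0 l1)) (c : (tmOf M).Cfg) (p ll : ℕ)
    (hp : p ≤ w.length + 1) (g : ℕ → Bool) (h : ℕ) (hh : h ≤ ll) :
    (tmOf M).RB w (ll + 2) (mkc c i (lab, Ph.ret) p h (tpd g ll))
      (mkc c i (l1, Ph.st) p 0 (tpd g ll)) := by
  induction h with
  | zero =>
    refine mkc_RB w c i _ _ p 0 0 (ll + 2) _ _ none Mv.S ?_ hp rfl (by omega) ?_
    · intro x y hy
      apply TD_δ_ret_n hI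
      rw [hy, tpd_zero]
    · have := Function.update_eq_self 0 (tpd g ll)
      rwa [tpd_zero] at this
  | succ h ih =>
    refine Relation.ReflTransGen.trans ?_ (ih (by omega))
    refine mkc_RB w c i _ _ p (h + 1) h (ll + 2) _ _ (tpd g ll (h + 1)) Mv.L ?_ hp rfl
      (by omega) (Function.update_eq_self _ _)
    intro x y hy
    have h1 := TD_δ_ret_s hI x y (by rw [hy, tpd_succ _ _ _ (by omega)]; simp)
    rw [hy] at h1
    exact h1

/-- digits during the reset -/
def TD_r (k : ℕ) : ℕ → Bool := fun j => if j < k then true else false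

theorem TD_r_succ (k : ℕ) : Function.update (TD_r (k + 1)) k false = TD_r k := by
  funext j
  unfold TD_r
  by_cases hj : j = k
  · rw [hj, Function.update_self, if_neg (by omega)]
  · rw [Function.update_of_ne hj]
    by_cases h : j < k
    · rw [if_pos h, if_pos (by omega)]
    · rw [if_neg h, if_neg (by omega)]

/-- reset phase -/
theorem TD_rs {α : Type} {M : CM α} (w : List α) {lab l0 l1 : M.Lab} {i : Fin M.m}
    (hI : M.ins lab = some (Ins.dec i l0 l1)) (c : (tmOf M).Cfg) (p ll : ℕ)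
    (hp : p ≤ w.length + 1) (h : ℕ) (hh : h ≤ ll) :
    (tmOf M).RB w (ll + 2) (mkc c i (lab, Ph.rs) p h (tpd (TD_r h) ll))
      (mkc c i (l0, Ph.st) p 0 (tpd (TD_r 0) ll)) := by
  induction h with
  | zero =>
    refine mkc_RB w c i _ _ p 0 0 (ll + 2) _ _ none Mv.S ?_ hp rfl (by omega) ?_
    · intro x y hy
      apply TD_δ_rs_n hI
      rw [hy, tpd_zero]
    · have := Function.update_eq_self 0 (tpd (TD_r 0) ll)
      rwa [tpd_zero] at this
  | succ h ih =>
    refine Relation.ReflTransGen.trans ?_ (ih (by omega))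
    refine mkc_RB w c i _ _ p (h + 1) h (ll + 2) _ _ (some false) Mv.L ?_ hp rfl
      (by omega) ?_
    · intro x y hy
      exact TD_δ_rs_s hI x y (by rw [hy, tpd_succ _ _ _ (by omega)]; simp)
    · rw [tpd_update _ _ _ _ (by omega), TD_r_succ]

theorem TD_sum (b g : ℕ → Bool) (ll j0 : ℕ) (hj : j0 < ll) (hb : ∀ j < j0, b j = false)
    (hb0 : b j0 = true) (hg : ∀ j < j0, g j = true) (hg0 : g j0 = false)
    (hgb : ∀ j, j0 < j → g j = b j) :
    (∑ j ∈ Finset.range ll, if b j = true then 2 ^ j else 0) =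
      (∑ j ∈ Finset.range ll, if g j = true then 2 ^ j else 0) + 1 := by
  obtain ⟨r, rfl⟩ := Nat.exists_eq_add_of_lt hj
  have h1 : j0 + r + 1 = (j0 + 1) + r := by ring
  have key : ∀ F : ℕ → ℕ, ∑ x ∈ Finset.range (j0 + 1 + r), F x =
      ∑ x ∈ Finset.range j0, F x + F j0 + ∑ x ∈ Finset.range r, F (j0 + 1 + x) := by
    intro F
    rw [Finset.sum_range_add, Finset.sum_range_succ]
  rw [h1, key, key]
  have h2 : (∑ j ∈ Finset.range j0, if b j = true then 2 ^ j else 0) = 0 := by
    apply Finset.sum_eq_zero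
    intro j hj
    rw [hb j (Finset.mem_range.1 hj)]
    simp
  have h3 : (∑ j ∈ Finset.range j0, if g j = true then 2 ^ j else 0) =
      ∑ j ∈ Finset.range j0, 2 ^ j := by
    refine Finset.sum_congr rfl fun j hj => ?_
    rw [hg j (Finset.mem_range.1 hj), if_pos rfl]
  have h4 : (∑ x ∈ Finset.range r, if b (j0 + 1 + x) = true then 2 ^ (j0 + 1 + x) else 0) =
      ∑ x ∈ Finset.range r, if g (j0 + 1 + x) = true then 2 ^ (j0 + 1 + x) else 0 := by
    refine Finset.sum_congr rfl fun x _ => ?_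
    rw [hgb _ (by omega)]
  rw [h2, h3, h4, hb0, hg0, if_pos rfl, if_neg (by simp)]
  have h5 := sum_two_pow j0
  omega

theorem mTD : StTD := by
  intro α M w lab l0 l1 i ll v c hI hq hd hrep
  obtain ⟨b, hτ, hv⟩ := rep_tpd hrep
  set p := min c.pos (w.length + 1) with hp
  have hp' : p ≤ w.length + 1 := min_le_right _ _
  -- first step
  have hstart : (tmOf M).RB w (ll + 2) c (mkc c i (lab, Ph.car) p 1 (tpd b ll)) := by
    have h1 : mkc c i (lab, Ph.st) c.pos 0 (tpd b ll) = c := by
      rw [← hτ, ← hq]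
      exact mkc_self c i hd
    have h2 := mkc_step w c i (lab, Ph.st) (lab, Ph.car) c.pos 0 (tpd b ll) (tpd b ll 0) Mv.R
      (fun x y hy => by
        have := TD_δ_st hI x y
        rw [hy] at this
        exact this)
    rw [h1, Function.update_eq_self] at h2
    exact Relation.ReflTransGen.single ⟨h2, mkc_hd_lt c i _ _ _ _ _ (by omega)⟩
  by_cases hex : ∃ j, j < ll ∧ b j = true
  · classical
    obtain ⟨j0, ⟨hj0, hbj0⟩, hmin⟩ : ∃ j0, (j0 < ll ∧ b j0 = true) ∧ ∀ j < j0, b j = false := by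
      refine ⟨Nat.find hex, Nat.find_spec hex, fun j hj => ?_⟩
      have h1 := Nat.find_min hex hj
      have h2 := (Nat.find_spec hex).1
      by_contra hne
      exact h1 ⟨by omega, by simpa using hne⟩
    set g : ℕ → Bool := Function.update (TD_f b j0) j0 false with hg
    have hg1 : ∀ j < j0, g j = true := by
      intro j hj
      rw [hg, Function.update_of_ne (by omega)]
      unfold TD_f
      rw [if_pos hj]
    have hg2 : g j0 = false := by rw [hg, Function.update_self]
    have hg3 : ∀ j, j0 < j → g j = b j := by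
      intro j hj
      rw [hg, Function.update_of_ne (by omega)]
      unfold TD_f
      rw [if_neg (by omega)]
    have hsum := TD_sum b g ll j0 hj0 hmin hbj0 hg1 hg2 hg3
    have hv0 : v ≠ 0 := by
      rw [hv, hsum]
      omega
    have hturn : (tmOf M).RB w (ll + 2) (mkc c i (lab, Ph.car) p (j0 + 1) (tpd (TD_f b j0) ll))
        (mkc c i (lab, Ph.ret) p j0 (tpd g ll)) := by
      refine mkc_RB w c i _ _ p (j0 + 1) j0 (ll + 2) _ _ (some false) Mv.L ?_ hp' rfl
        (by omega) ?_
      · intro x y hy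
        apply TD_δ_car_t hI
        rw [hy, tpd_succ _ _ _ (by omega)]
        unfold TD_f
        rw [if_neg (by omega), hbj0]
      · rw [tpd_update _ _ _ _ (by omega)]
    refine ⟨mkc c i (l1, Ph.st) p 0 (tpd g ll), ?_, ?_, rfl, ?_, ?_, ?_⟩
    · exact ((hstart.trans (TD_car w hI c p ll hp' b j0 (by omega) hmin)).trans hturn).trans
        (TD_ret w hI c p ll hp' g j0 (by omega))
    · rw [if_neg hv0]
      rfl
    · intro t
      change (if t = i then 0 else 0) = 0
      split_ifs <;> rfl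
    · intro t ht
      exact mkc_tp_ne c i _ _ _ _ t ht
    · rw [mkc_tp_i, hv, hsum]
      exact tpd_rep g ll
  · push Not at hex
    have hb : ∀ j < ll, b j = false := by
      intro j hj
      have := hex j hj
      simpa using this
    have hv0 : v = 0 := by
      rw [hv]
      apply Finset.sum_eq_zero
      intro j hj
      rw [hb j (Finset.mem_range.1 hj)]
      simp
    have e1 : tpd (TD_f b ll) ll = tpd (TD_r ll) ll := by
      apply tpd_congr
      intro j hj
      unfold TD_f TD_r
      rw [if_pos hj, if_pos hj]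
    have e2 : tpd (TD_r 0) ll = tpd b ll := by
      apply tpd_congr
      intro j hj
      unfold TD_r
      rw [if_neg (by omega), hb j hj]
    have hturn : (tmOf M).RB w (ll + 2) (mkc c i (lab, Ph.car) p (ll + 1) (tpd (TD_f b ll) ll))
        (mkc c i (lab, Ph.rs) p ll (tpd (TD_r ll) ll)) := by
      rw [e1]
      refine mkc_RB w c i _ _ p (ll + 1) ll (ll + 2) _ _ none Mv.L ?_ hp' rfl (by omega) ?_
      · intro x y hy
        apply TD_δ_car_n hI
        rw [hy, tpd_gt _ _ _ (by omega)]
      · have := Function.update_eq_self (ll + 1) (tpd (TD_r ll) ll)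
        rwa [tpd_gt _ _ _ (by omega)] at this
    refine ⟨mkc c i (l0, Ph.st) p 0 (tpd b ll), ?_, ?_, rfl, ?_, ?_, ?_⟩
    · have h1 := TD_rs w hI c p ll hp' ll le_rfl
      rw [e2] at h1
      exact ((hstart.trans (TD_car w hI c p ll hp' b ll le_rfl hb)).trans hturn).trans h1
    · rw [if_pos hv0]
      rfl
    · intro t
      change (if t = i then 0 else 0) = 0
      split_ifs <;> rfl
    · intro t ht
      exact mkc_tp_ne c i _ _ _ _ t ht
    · rw [mkc_tp_i, hv0]
      have h1 := tpd_rep b ll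
      rw [← hv, hv0] at h1
      exact h1

end Pool.Agent.Helper51.DC
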