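import Pool.Agent.Helper73.DC.St1

/-!
# Project DC: common lemmas for the modules TI and TD
-/

set_option autoImplicit false

namespace Pool.Agent.Helper51.DC

open Pool.Agent.Helper73.DC

/-- configurations of the simulating machine in which only tape `i` is active -/
noncomputable def mkc {α : Type} {M : CM α} (c : (tmOf M).Cfg) (i : Fin M.m) (q : M.Lab × Ph) (p h : ℕ)
    (τ : ℕ → Option Bool) : (tmOf M).Cfg where
  q := q
  pos := p
  hd := fun t : Fin M.m => if t = i then h else 0
  tp := fun t : Fin M.m => if t = i then τ else c.tp t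

theorem mkc_self {α : Type} {M : CM α} (c : (tmOf M).Cfg) (i : Fin M.m) (h : ∀ t, c.hd t = 0) :
    mkc c i c.q c.pos 0 (c.tp i) = c := by
  obtain ⟨q, p, hd, tp⟩ := c
  unfold mkc
  simp only [OTM.Cfg.mk.injEq, true_and]
  refine ⟨?_, ?_⟩
  · funext t
    have := h t
    simp only at this
    rw [this]
    simp
  · funext t
    split_ifs with ht
    · rw [ht]
    · rfl

theorem mkc_tp_i {α : Type} {M : CM α} (c : (tmOf M).Cfg) (i : Fin M.m) (q : M.Lab × Ph) (p h : ℕ)
    (τ : ℕ → Option Bool) : (mkc c i q p h τ).tp i = τ := by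
  simp [mkc]

theorem mkc_tp_ne {α : Type} {M : CM α} (c : (tmOf M).Cfg) (i : Fin M.m) (q : M.Lab × Ph) (p h : ℕ)
    (τ : ℕ → Option Bool) (t : Fin M.m) (ht : t ≠ i) : (mkc c i q p h τ).tp t = c.tp t := by
  simp [mkc, ht]

theorem mkc_hd_lt {α : Type} {M : CM α} (c : (tmOf M).Cfg) (i : Fin M.m) (q : M.Lab × Ph) (p h b : ℕ)
    (τ : ℕ → Option Bool) (hb : h < b) : ∀ t, (mkc c i q p h τ).hd t < b := by
  intro t
  change (if t = i then h else 0) < b
  split_ifs <;> omega

theorem step_some {α : Type} {M : OTM α} (w : List α) (c : M.Cfg) (q' : M.Q) (d : Mv)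
    (f : Fin M.tapes → M.Γ × Mv)
    (h : M.δ c.q (symAt w c.pos) (fun t => c.tp t (c.hd t)) = some (q', d, f)) :
    M.step w c = some
      { q := q'
        pos := min (mvN d c.pos) (w.length + 1)
        hd := fun t => mvN (f t).2 (c.hd t)
        tp := fun t => Function.update (c.tp t) (c.hd t) (f t).1 } := by
  unfold OTM.step
  rw [h]

theorem mkc_step {α : Type} {M : CM α} (w : List α) (c : (tmOf M).Cfg) (i : Fin M.m)
    (q q' : M.Lab × Ph) (p h : ℕ) (τ : ℕ → Option Bool) (g : Option Bool) (d : Mv)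
    (hδ : ∀ (x : Sym α) (y : Fin M.m → Option Bool), y i = τ h →
      (tmOf M).δ q x y = some (q', Mv.S, act1 i y g d)) :
    (tmOf M).step w (mkc c i q p h τ) =
      some (mkc c i q' (min p (w.length + 1)) (mvN d h) (Function.update τ h g)) := by
  have h1 := hδ (symAt w (mkc c i q p h τ).pos)
    (fun t => (mkc c i q p h τ).tp t ((mkc c i q p h τ).hd t)) (by simp [mkc])
  refine (step_some w (mkc c i q p h τ) _ _ _ h1).trans ?_
  have e1 : ∀ (Y : Fin M.m → Option Bool) (t : Fin M.m),
      mvN (act1 i Y g d t).2 (if t = i then h else 0) = if t = i then mvN d h else 0 := by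
    intro Y t
    unfold act1
    by_cases ht : t = i
    · rw [if_pos ht, if_pos ht, if_pos ht]
    · rw [if_neg ht, if_neg ht, if_neg ht]
      rfl
  have e2 : ∀ (t : Fin M.m),
      Function.update (if t = i then τ else c.tp t) (if t = i then h else 0)
        (act1 i (fun t : Fin M.m => (if t = i then τ else c.tp t) (if t = i then h else 0)) g d t).1 =
      if t = i then Function.update τ h g else c.tp t := by
    intro t
    unfold act1
    by_cases ht : t = i
    · rw [if_pos ht, if_pos ht, if_pos ht, if_pos ht]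
    · simp only [if_neg ht]
      exact Function.update_eq_self _ _
  refine congrArg some ?_
  unfold mkc
  rw [OTM.Cfg.mk.injEq]
  exact ⟨rfl, rfl, funext (e1 _), funext e2⟩

/-- one step with bound -/
theorem mkc_RB {α : Type} {M : CM α} (w : List α) (c : (tmOf M).Cfg) (i : Fin M.m)
    (q q' : M.Lab × Ph) (p h h' b : ℕ) (τ τ' : ℕ → Option Bool) (g : Option Bool) (d : Mv)
    (hδ : ∀ (x : Sym α) (y : Fin M.m → Option Bool), y i = τ h →
      (tmOf M).δ q x y = some (q', Mv.S, act1 i y g d)) (hp : p ≤ w.length + 1)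
    (hh : mvN d h = h') (hb : h' < b) (hτ : Function.update τ h g = τ') :
    (tmOf M).RB w b (mkc c i q p h τ) (mkc c i q' p h' τ') := by
  refine Relation.ReflTransGen.single ⟨?_, mkc_hd_lt c i q' p h' b τ' hb⟩
  rw [mkc_step w c i q q' p h τ g d hδ, hh, hτ, min_eq_left hp]

/-- the tape with digits `f` -/
def tpd (f : ℕ → Bool) (l : ℕ) : ℕ → Option Bool :=
  fun j => if 1 ≤ j ∧ j ≤ l then some (f (j - 1)) else none

theorem tpd_zero (f : ℕ → Bool) (l : ℕ) : tpd f l 0 = none := by
  simp [tpd]

theorem tpd_succ (f : ℕ → Bool) (l j : ℕ) (h : j < l) : tpd f l (j + 1) = some (f j) := by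
  unfold tpd
  rw [if_pos ⟨by omega, by omega⟩]
  rfl

theorem tpd_gt (f : ℕ → Bool) (l j : ℕ) (h : l < j) : tpd f l j = none := by
  unfold tpd
  rw [if_neg (by omega)]

theorem tpd_congr (f g : ℕ → Bool) (l : ℕ) (h : ∀ j < l, f j = g j) : tpd f l = tpd g l := by
  funext j
  unfold tpd
  split_ifs with hj
  · rw [h (j - 1) (by omega)]
  · rfl

theorem tpd_update (f : ℕ → Bool) (l j : ℕ) (x : Bool) (h : j < l) :
    Function.update (tpd f l) (j + 1) (some x) = tpd (Function.update f j x) l := by
  funext k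
  by_cases hk : k = j + 1
  · rw [hk, Function.update_self, tpd_succ _ _ _ h, Function.update_self]
  · rw [Function.update_of_ne hk]
    unfold tpd
    split_ifs with h1
    · rw [Function.update_of_ne (by omega)]
    · rfl

/-- writing one more digit -/
theorem tpd_extend (f : ℕ → Bool) (l : ℕ) (x : Bool) :
    Function.update (tpd f l) (l + 1) (some x) = tpd (Function.update f l x) (l + 1) := by
  funext k
  by_cases hk : k = l + 1
  · rw [hk, Function.update_self, tpd_succ _ _ _ (by omega), Function.update_self]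
  · rw [Function.update_of_ne hk]
    unfold tpd
    by_cases h1 : 1 ≤ k ∧ k ≤ l
    · rw [if_pos h1, if_pos (by omega), Function.update_of_ne (by omega)]
    · rw [if_neg h1, if_neg (by omega)]

theorem rep_tpd {l : ℕ} {τ : ℕ → Option Bool} {v : ℕ} (h : Rep l τ v) :
    ∃ b : ℕ → Bool, τ = tpd b l ∧ v = ∑ j ∈ Finset.range l, if b j = true then 2 ^ j else 0 := by
  obtain ⟨b, h1, h2⟩ := h
  exact ⟨b, funext h1, h2⟩

theorem tpd_rep (b : ℕ → Bool) (l : ℕ) :
    Rep l (tpd b l) (∑ j ∈ Finset.range l, if b j = true then 2 ^ j else 0) :=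
  ⟨b, fun _ => rfl, rfl⟩

theorem sum_two_pow (k : ℕ) : ∑ j ∈ Finset.range k, 2 ^ j + 1 = 2 ^ k := by
  induction k with
  | zero => simp
  | succ k ih => rw [Finset.sum_range_succ, pow_succ]; omega

end Pool.Agent.Helper51.DC
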